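import Pool.Agent.Helper996.Lin.DegG
import Pool.Agent.Helper996.LinC.DegS

/-!
Holomorphic maps `G_k^0 → G_n^0` (`k > 4`) whose differential is nowhere injective are splittable, and
holomorphic maps `SG_k → SG_n` (`k > 4`) whose differential is nowhere injective are constant.

* `LinS.cpoly k w` is the polynomial `X^k + ∑_{i<k-1} w_i X^i` (no term of degree `k-1`);
* `LinS.G0 k` is the open set of the `w : Fin (k-1) → ℂ` for which it is squarefree, i.e. has non-zero
  discriminant: the manifold `G_k^0` with coordinates `z_2,...,z_k`;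
* `LinC.SG k` is the set of the `w : Fin (k-1) → ℂ` for which its discriminant is `1`;
* `LinC.HolSS f`: the map `f : SG k → SG n` is holomorphic;
* `LinC.NotImm f z`: the differential of `f` at `z` (on the tangent space of `SG k`) is not injective.
-/

set_option autoImplicit false

open Polynomial Set Filter Topology
open scoped Manifold ContDiff

namespace Pool.Agent.Results.MP_730da0_ag.NonMaximalRank

open LinS LinC

/-- `f : M → M'` is holomorphic, for complex manifolds `M`, `M'` modelled on `E`, `E'` -/
def Hol (E E' : Type*) [NormedAddCommGroup E] [NormedSpace ℂ E] [NormedAddCommGroup E']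
    [NormedSpace ℂ E'] {M M' : Type*} [TopologicalSpace M] [ChartedSpace E M]
    [TopologicalSpace M'] [ChartedSpace E' M'] (f : M → M') : Prop :=
  MDifferentiable 𝓘(ℂ, E) 𝓘(ℂ, E') f

/-- the differential of `f` at `z` is injective -/
def ImmersiveAt (E E' : Type*) [NormedAddCommGroup E] [NormedSpace ℂ E] [NormedAddCommGroup E']
    [NormedSpace ℂ E'] {M M' : Type*} [TopologicalSpace M] [ChartedSpace E M]
    [TopologicalSpace M'] [ChartedSpace E' M'] (f : M → M') (z : M) : Prop :=
  Function.Injective (mfderiv 𝓘(ℂ, E) 𝓘(ℂ, E') f z)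

/-- `f : G_k^0 → G_n^0` is holomorphic -/
def HolG {k n : ℕ} (f : G0 k → G0 n) : Prop :=
  Hol (Fin (k - 1) → ℂ) (Fin (n - 1) → ℂ) f

/-- the differential of `f : G_k^0 → G_n^0` is injective at no point -/
def NowhereImmersive {k n : ℕ} (f : G0 k → G0 n) : Prop :=
  ∀ z : G0 k, ¬ ImmersiveAt (Fin (k - 1) → ℂ) (Fin (n - 1) → ℂ) f z

/-- `f` is continuous, and at every base point the image of the homomorphism of fundamental groups
induced by `f` is trivial or isomorphic to the additive group `ℤ` -/
def TrivialOrIntegerImage {Y Z : Type*} [TopologicalSpace Y] [TopologicalSpace Z]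
    (f : Y → Z) : Prop :=
  ∃ hf : Continuous f, ∀ y : Y,
    (FundamentalGroup.map (⟨f, hf⟩ : C(Y, Z)) y).range = ⊥ ∨
      Nonempty ((FundamentalGroup.map (⟨f, hf⟩ : C(Y, Z)) y).range ≃* Multiplicative ℤ)

/-- a holomorphic map `G_k^0 → G_n^0` that is nowhere immersive is splittable, and a holomorphic map
`SG_k → SG_n` that is nowhere immersive is constant -/
theorem result (k n : ℕ) (hk : 4 < k) (hn : 3 ≤ n) :
    (∀ f : G0 k → G0 n, HolG f → NowhereImmersive f → TrivialOrIntegerImage f) ∧
    ∀ f : SG k → SG n, HolSS f → (∀ z, NotImm f z) → ∀ z z' : SG k, f z = f z' := by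
  obtain ⟨m, rfl⟩ : ∃ m, k = m + 1 := ⟨k - 1, by omega⟩
  refine ⟨fun f hf hdeg => ⟨MDifferentiable.continuous hf, fun z => deg_splittable (by omega) hn f hf hdeg z⟩, ?_⟩
  intro f hf hdeg z z'
  exact deg_const (by omega) hn f hf hdeg z z'

end Pool.Agent.Results.MP_730da0_ag.NonMaximalRank
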